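import Pool.Agent.Helper20.SD.Uniq

/-!
# Modular lattices with self-dual intervals: decomposition, and classification without planes

Definitions used below (in `Pool.Agent.Helper20.SD`):

* `SD L`: every interval of the lattice `L` is self-dual;
* `Finitary L`: principal ideals are finite; `FiniteCovers L`: every element has finitely many
  covers;
* `HasOrder q L`: whenever `y ≠ z` cover `x`, exactly `q + 1` elements cover `x` and lie below
  `y ⊔ z`;
* `PlaneFree L`: there are no covers `p ≠ q`, `r` of an element `x`, `r` not below `p ⊔ q`, with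
  a third cover of `x` below `p ⊔ q` and a third one below `q ⊔ r` (that is, no interval is a
  projective plane);
* `Tree p`: pairs (word, level), the word a vertex of the tree in which the root has `p + 2`
  children and every other vertex `p + 1`, the level a natural number; `x ≤ y` when
  `length x.word + x.lev ≤ y.lev + (length of the longest common initial segment of the words)`
  (and then the levels are ordered);
* `T p a b` (`b ≤ a` in `ℕ∞`): the ideal of `Tree p` generated by the elements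
  `(0 ... 0, m)` with `n - m` zeros, `m ≤ n`, `m ≤ b`, `n ≤ a`;
* `Params p a b`: `b ≤ a`, `a ≠ 0`, and `p = 0` exactly when `b = 0`.
-/

namespace Pool.Agent.Results.MP_34a2f2_co.Classification

open Pool.Agent.Helper20.SD

universe u

/-- order `q`, and some element has three covers, none below the join of the other two -/
def PlaneType (q : ℕ) (M : Type*) [Lattice M] : Prop :=
  HasOrder q M ∧ ∃ x a b c : M, x ⋖ a ∧ x ⋖ b ∧ x ⋖ c ∧ a ≠ b ∧ ¬ c ≤ a ⊔ b

/-- the indecomposable lattices: some `T p a b`, or of plane type of some order `q ≥ 2` -/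
structure Brick (M : Type*) [Lattice M] : Prop where
  modular : IsModularLattice M
  finitary : Finitary M
  covers : FiniteCovers M
  sd : SD M
  type : (∃ (p : ℕ) (a b : ℕ∞), Params p a b ∧ Nonempty (M ≃o T p a b)) ∨
    ∃ q, 2 ≤ q ∧ PlaneType q M

theorem exists_bot {L : Type*} [Lattice L] [Nonempty L] (hf : Finitary L) :
    ∃ o : L, ∀ x, o ≤ x := by
  obtain ⟨x⟩ := ‹Nonempty L›
  obtain ⟨o, ho⟩ := (hf x).exists_minimal ⟨x, le_rfl⟩
  refine ⟨o, fun y => ?_⟩
  have h1 : o ≤ o ⊓ y := ho.2 (show o ⊓ y ∈ Set.Iic x from inf_le_left.trans ho.1) inf_le_left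
  exact h1.trans inf_le_right

theorem pi_modular {n : ℕ} {F : Fin n → Type u} [∀ i, Lattice (F i)]
    (h : ∀ i, IsModularLattice (F i)) : IsModularLattice (∀ i, F i) :=
  ⟨fun {_} y {_} hxz i => (h i).sup_inf_le_assoc_of_le (y i) (hxz i)⟩

theorem decomposition (L : Type u) [Lattice L] [Nonempty L] (hm : IsModularLattice L)
    (hf : Finitary L) (hfc : FiniteCovers L) (hSD : SD L) :
    ∃ (n : ℕ) (S : Fin n → Sublattice L), (∀ i, Brick (S i)) ∧ Nonempty (L ≃o ∀ i, S i) := by
  obtain ⟨o, ho⟩ := exists_bot hf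
  let _ : OrderBot L := { bot := o, bot_le := ho }
  obtain ⟨n, A, hA, hdisj, hcover, hne, hlink⟩ := exists_classes (hfc ⊥)
  obtain ⟨E⟩ := decomp hf hSD A hA hdisj hcover
  refine ⟨n, fun i => part hf hSD (hA i), fun i => ?_, ⟨E.symm⟩⟩
  obtain ⟨h1, h2, h3, h4⟩ := sub_props (part_lower (hf := hf) (hSD := hSD) (hA i)) hf hfc hSD
  let _ : OrderBot (part hf hSD (hA i)) :=
    { bot := ⟨⊥, In.bot _⟩
      bot_le := fun x => (bot_le : ⊥ ≤ (x : L)) }
  have hcov : ∀ x y : part hf hSD (hA i), x ⋖ y ↔ (x : L) ⋖ y := fun x y =>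
    ((range_subtype_ordConnected _ (part_lower (hA i))).apply_covBy_apply_iff
    (OrderEmbedding.subtype fun z => z ∈ part hf hSD (hA i))).symm
  have hne' : ∃ a : part hf hSD (hA i), ⊥ ⋖ a := by
    obtain ⟨a, ha, ha'⟩ := hne i
    refine ⟨⟨a, ?_⟩, (hcov _ _).2 ha'⟩
    intro b hb hba
    rwa [atom_le_atom hb ha' hba]
  have hlink' : ∀ a b : part hf hSD (hA i), ⊥ ⋖ a → ⊥ ⋖ b → Persp a b := by
    intro a b ha hb
    have ha' : ⊥ ⋖ (a : L) := (hcov _ _).1 ha
    have hb' : ⊥ ⋖ (b : L) := (hcov _ _).1 hb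
    rcases hlink i a b (a.2 a ha' le_rfl) (b.2 b hb' le_rfl) with h | ⟨c, hc, hca, hcb, hcle⟩
    · exact Or.inl (Subtype.ext h)
    · have hcm : c ∈ part hf hSD (hA i) := In.mono (a.2.sup hf hSD (hA i) b.2) hcle
      refine Or.inr ⟨⟨c, hcm⟩, (hcov _ _).2 hc, fun h => hca (congrArg Subtype.val h),
        fun h => hcb (congrArg Subtype.val h), hcle⟩
  refine ⟨h1, h2, h3, h4, ?_⟩
  by_cases hpl : ∀ a b c : part hf hSD (hA i), ⊥ ⋖ a → ⊥ ⋖ b → ⊥ ⋖ c → a ≠ b → c ≤ a ⊔ b
  · left
    have hpq := pq_of_atoms h2 h4 (h3 ⊥) hpl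
    refine connected_iso h2 h3 h4 ?_ hne' hlink'
    intro x p q r _ _ hp hq hr _ _ hpq' _ _ _ _ _ _
    exact hpq.up_le x p q r hp hq hpq' hr
  · right
    obtain ⟨q, hq, hord⟩ := exists_order (h3 ⊥) h4 hlink'
    push Not at hpl
    obtain ⟨a, b, c, ha, hb, hc, hab, hcab⟩ := hpl
    exact ⟨q, hq, hord, ⊥, a, b, c, ha, hb, hc, hab, hcab⟩

theorem product {n : ℕ} (F : Fin n → Type u) [∀ i, Lattice (F i)] (h : ∀ i, Brick (F i)) :
    IsModularLattice (∀ i, F i) ∧ Finitary (∀ i, F i) ∧ FiniteCovers (∀ i, F i) ∧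
      SD (∀ i, F i) :=
  ⟨pi_modular fun i => (h i).modular, Finitary.pi fun i => (h i).finitary,
    FiniteCovers.pi fun i => (h i).covers, SD.pi fun i => (h i).sd⟩

/-- in a brick there are atoms and they are linked -/
theorem brick_atoms {M : Type u} [Lattice M] [OrderBot M] (h : Brick M) :
    (∃ a : M, ⊥ ⋖ a) ∧ ∀ a b : M, ⊥ ⋖ a → ⊥ ⋖ b → Persp a b := by
  rcases h.type with ⟨p, a, b, hp, ⟨e⟩⟩ | ⟨q, hq, hord, x, a, b, c, ha, hb, hc, hab, hcab⟩
  · constructor
    · obtain ⟨x, hx⟩ := T_exists_atom hp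
      refine ⟨e.symm x, ?_⟩
      rw [← e.symm.map_bot, apply_covBy_apply_iff e.symm]
      exact hx
    · intro x y hx hy
      rw [← Persp.map_iff e]
      apply T_linked hp
      · rw [← e.map_bot, apply_covBy_apply_iff e]; exact hx
      · rw [← e.map_bot, apply_covBy_apply_iff e]; exact hy
  · constructor
    · obtain ⟨z, hz, _⟩ := exists_atom h.finitary (x := a)
        (fun h0 => not_lt_bot (h0 ▸ ha.lt))
      exact ⟨z, hz⟩
    · intro u v hu hv
      by_cases huv : u = v
      · exact Or.inl huv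
      have h1 := hord ⊥ u v hu hv huv
      have h2 : ({u, v} : Set M).ncard < {w : M | ⊥ ⋖ w ∧ w ≤ u ⊔ v}.ncard := by
        rw [h1, Set.ncard_pair huv]; omega
      obtain ⟨c, hc, hc'⟩ := Set.exists_mem_notMem_of_ncard_lt_ncard h2
      rw [Set.mem_insert_iff, Set.mem_singleton_iff, not_or] at hc'
      exact Or.inr ⟨c, hc.1, hc'.1, hc'.2, hc.2⟩

theorem brick_nonempty {M : Type u} [Lattice M] (h : Brick M) : Nonempty M := by
  rcases h.type with ⟨p, a, b, hp, ⟨e⟩⟩ | ⟨q, hq, hord, x, _⟩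
  · exact ⟨e.symm ⊥⟩
  · exact ⟨x⟩

theorem bricks_unique {n m : ℕ} (F : Fin n → Type u) (G : Fin m → Type u)
    [∀ i, Lattice (F i)] [∀ i, Lattice (G i)] (hF : ∀ i, Brick (F i)) (hG : ∀ i, Brick (G i))
    (φ : (∀ i, F i) ≃o ∀ i, G i) : ∃ σ : Fin n ≃ Fin m, ∀ i, Nonempty (F i ≃o G (σ i)) := by
  have h1 : ∀ i, ∃ o : F i, ∀ x, o ≤ x := fun i =>
    let _ := brick_nonempty (hF i)
    exists_bot (hF i).finitary
  have h2 : ∀ i, ∃ o : G i, ∀ x, o ≤ x := fun i =>
    let _ := brick_nonempty (hG i)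
    exists_bot (hG i).finitary
  choose o ho using h1
  choose o' ho' using h2
  let _ : ∀ i, OrderBot (F i) := fun i => { bot := o i, bot_le := ho i }
  let _ : ∀ i, OrderBot (G i) := fun i => { bot := o' i, bot_le := ho' i }
  exact factors_unique (fun i => (hF i).finitary) (fun i => (hG i).finitary)
    (fun i => (brick_atoms (hF i)).1) (fun i => (brick_atoms (hG i)).1)
    (fun i => (brick_atoms (hF i)).2) (fun i => (brick_atoms (hG i)).2) φ

theorem T_finitary (p : ℕ) (a b : ℕ∞) : Finitary (T p a b) := fun x => T_finite_Iic x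

theorem T_brick {p : ℕ} {a b : ℕ∞} (h : Params p a b) : Brick (T p a b) :=
  ⟨inferInstance, T_finitary p a b, fun x => (T_pq p a b).finite_covers x,
    (T_pq p a b).sd (T_finitary p a b), Or.inl ⟨p, a, b, h, ⟨OrderIso.refl _⟩⟩⟩

theorem T_finite {p : ℕ} {a b : ℕ∞} (h : b ≤ a) : Finite (T p a b) ↔ a ≠ ⊤ := by
  constructor
  · rintro hfin rfl
    have h1 : Function.Injective (fun n : ℕ =>
        (⟨Tree.base p n 0, 0, n, by omega, by simp, by simp, le_rfl⟩ : T p ⊤ b)) := by
      intro n m hnm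
      have := congrArg (fun z : T p ⊤ b => (z : Tree p).word.length) hnm
      simpa [Tree.base] using this
    exact (Infinite.of_injective _ h1).not_finite hfin
  · intro ha
    obtain ⟨a, rfl⟩ := ENat.ne_top_iff_exists.1 ha
    obtain ⟨b, rfl⟩ := ENat.ne_top_iff_exists.1 (ne_top_of_le_ne_top (ENat.natCast_ne_top a) h)
    have h' : b ≤ a := by exact_mod_cast h
    have h1 : ∀ x : T p a b, (x : Tree p) ∈ Set.Iic (Tree.base p (a - b) b) := by
      rintro ⟨x, m, n, h1, h2, h3, h4⟩
      have h2' : m ≤ b := by exact_mod_cast h2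
      have h3' : n ≤ a := by exact_mod_cast h3
      refine h4.trans ?_
      rw [Tree.base_le_base]
      omega
    have := (Tree.finite_Iic (Tree.base p (a - b) b)).to_subtype
    exact Finite.of_injective (fun x : T p a b =>
      (⟨(x : Tree p), h1 x⟩ : Set.Iic (Tree.base p (a - b) b)))
      fun x y hxy => Subtype.ext (congrArg (fun z : Set.Iic (Tree.base p (a - b) b) =>
        (z : Tree p)) hxy)

theorem plane_free (L : Type u) [Lattice L] [Nonempty L] (hm : IsModularLattice L)
    (hf : Finitary L) (hfc : FiniteCovers L) : (SD L ∧ PlaneFree L) ↔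
    ∃ (n : ℕ) (p : Fin n → ℕ) (a b : Fin n → ℕ∞), (∀ i, Params (p i) (a i) (b i)) ∧
      Nonempty (L ≃o ∀ i, T (p i) (a i) (b i)) := by
  constructor
  · rintro ⟨hSD, hpf⟩
    obtain ⟨o, ho⟩ := exists_bot hf
    let _ : OrderBot L := { bot := o, bot_le := ho }
    exact exists_prod hf hfc hSD hpf
  · rintro ⟨n, p, a, b, hP, ⟨e⟩⟩
    exact ⟨(SD.pi fun i => (T_brick (hP i)).sd).of_iso e,
      (PlaneFree.pi fun i => T_pq (p i) (a i) (b i)).of_iso e⟩

/-- **Decomposition and classification.**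

(1) A nonempty modular, finitary lattice with finite covers and (SD) is isomorphic to a finite
direct product of bricks (sublattices of it): lattices `T p a b`, and (SD) lattices of plane type
of some order `q ≥ 2`.
(2) Conversely finite products of bricks are modular, finitary, with finite covers and (SD).
(3) The bricks of a product are unique up to order and isomorphism.
(4) The `T p a b` are bricks, pairwise not isomorphic, and `T p a b` is finite iff `a < ∞`.
(5) A nonempty modular, finitary lattice with finite covers has (SD) and no interval that is a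
projective plane if and only if it is isomorphic to a finite product of lattices `T p a b`. -/
theorem result :
    (∀ (L : Type u) [Lattice L] [Nonempty L], IsModularLattice L → Finitary L →
      FiniteCovers L → SD L →
        ∃ (n : ℕ) (S : Fin n → Sublattice L), (∀ i, Brick (S i)) ∧ Nonempty (L ≃o ∀ i, S i)) ∧
    (∀ (n : ℕ) (F : Fin n → Type u) [∀ i, Lattice (F i)], (∀ i, Brick (F i)) →
      IsModularLattice (∀ i, F i) ∧ Finitary (∀ i, F i) ∧ FiniteCovers (∀ i, F i) ∧
        SD (∀ i, F i)) ∧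
    (∀ (n m : ℕ) (F : Fin n → Type u) (G : Fin m → Type u) [∀ i, Lattice (F i)]
      [∀ i, Lattice (G i)], (∀ i, Brick (F i)) → (∀ i, Brick (G i)) →
        Nonempty ((∀ i, F i) ≃o ∀ i, G i) →
          ∃ σ : Fin n ≃ Fin m, ∀ i, Nonempty (F i ≃o G (σ i))) ∧
    (∀ (p : ℕ) (a b : ℕ∞), Params p a b → Brick (T p a b) ∧ (Finite (T p a b) ↔ a ≠ ⊤) ∧
      ∀ (p' : ℕ) (a' b' : ℕ∞), Params p' a' b' → Nonempty (T p a b ≃o T p' a' b') →
        p = p' ∧ a = a' ∧ b = b') ∧
    (∀ (L : Type u) [Lattice L] [Nonempty L], IsModularLattice L → Finitary L →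
      FiniteCovers L → ((SD L ∧ PlaneFree L) ↔
        ∃ (n : ℕ) (p : Fin n → ℕ) (a b : Fin n → ℕ∞), (∀ i, Params (p i) (a i) (b i)) ∧
          Nonempty (L ≃o ∀ i, T (p i) (a i) (b i)))) :=
  ⟨fun L _ _ h1 h2 h3 h4 => decomposition L h1 h2 h3 h4, fun _ F _ h => product F h,
    fun _ _ F G _ _ hF hG ⟨φ⟩ => bricks_unique F G hF hG φ,
    fun _ _ _ h => ⟨T_brick h, T_finite h.le, fun _ _ _ h' ⟨e⟩ => T_unique h h' e⟩,
    fun L _ _ h1 h2 h3 => plane_free L h1 h2 h3⟩

end Pool.Agent.Results.MP_34a2f2_co.Classification
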